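import Mathlib

/-!
# A topologizable group without nontrivial convergent sequences

Iterated regular wreath products with retractions, a countable saturation argument.
-/

set_option autoImplicit false

namespace Pool.Agent.TH787.WreathTower

open Filter Topology RegularWreathProduct

/-- The finite group used at every level. -/
abbrev D : Type := Equiv.Perm (Fin 3)

/-- The commutator word. -/
def cm {H : Type*} [Group H] (x y : H) : H := x * y * x⁻¹ * y⁻¹

lemma map_cm {H K : Type*} [Group H] [Group K] (f : H →* K) (x y : H) :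
    f (cm x y) = cm (f x) (f y) := by
  simp [cm]

section Key

variable {Q : Type} [Group Q]

open Classical in
/-- The element of the wreath product concentrated at the identity coordinate. -/
noncomputable def sg (d : D) : RegularWreathProduct D Q := ⟨fun k => if k = 1 then d else 1, 1⟩

lemma sg_right (d : D) : (sg d : RegularWreathProduct D Q).right = 1 := rfl

lemma key (x : Q) (hx : x ≠ 1) (d e : D) :
    cm (cm (inl x : RegularWreathProduct D Q) (sg d)) (sg e) = sg (cm d⁻¹ e) := by
  classical
  apply RegularWreathProduct.ext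
  · funext k
    by_cases hk : k = 1
    · subst hk
      simp [cm, sg, hx]
    · by_cases hx' : x⁻¹ * k = 1
      · simp [cm, sg, hk, hx']
      · simp [cm, sg, hk, hx']
  · simp [cm, sg]

lemma sg_ne_one {d : D} (hd : d ≠ 1) : (sg d : RegularWreathProduct D Q) ≠ 1 := by
  classical
  intro h
  have := congrArg (fun z : RegularWreathProduct D Q => z.left 1) h
  simp [sg] at this
  exact hd this

end Key

/-- The tower of iterated wreath products. -/
def Tw : ℕ → Type
  | 0 => PUnit
  | n + 1 => RegularWreathProduct D (Tw n)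

noncomputable instance instGroupTw : ∀ n, Group (Tw n)
  | 0 => (inferInstance : Group PUnit)
  | n + 1 => @RegularWreathProduct.instGroup D (Tw n) _ (instGroupTw n)

/-- The embedding of a level into the next one. -/
noncomputable def up (n : ℕ) : Tw n →* Tw (n + 1) :=
  (inl : Tw n →* RegularWreathProduct D (Tw n))

/-- The retraction of a level onto the previous one. -/
noncomputable def dn (n : ℕ) : Tw (n + 1) →* Tw n :=
  (rightHom : RegularWreathProduct D (Tw n) →* Tw n)

/-- The special elements. -/
noncomputable def sp (d : D) (n : ℕ) : Tw (n + 1) := (sg d : RegularWreathProduct D (Tw n))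

lemma dn_up (n : ℕ) (x : Tw n) : dn n (up n x) = x := rfl

lemma dn_sp (d : D) (n : ℕ) : dn n (sp d n) = 1 := rfl

lemma key' (n : ℕ) (x : Tw n) (hx : x ≠ 1) (d e : D) :
    cm (cm (up n x) (sp d n)) (sp e n) = sp (cm d⁻¹ e) n := key x hx d e

lemma sp_ne_one {d : D} (hd : d ≠ 1) (n : ℕ) : sp d n ≠ 1 := sg_ne_one hd

/-- The union of the tower, as a group of coherent sequences. -/
def W : Subgroup (∀ n, Tw n) where
  carrier := {x | (∀ n, dn n (x (n + 1)) = x n) ∧ ∃ N, ∀ n ≥ N, x (n + 1) = up n (x n)}
  one_mem' := ⟨fun n => by simp, 0, fun n _ => by simp⟩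
  mul_mem' := by
    rintro x y ⟨hx, N, hN⟩ ⟨hy, M, hM⟩
    refine ⟨fun n => by simp [hx, hy], max N M, fun n hn => ?_⟩
    simp [hN n (le_trans (le_max_left _ _) hn), hM n (le_trans (le_max_right _ _) hn)]
  inv_mem' := by
    rintro x ⟨hx, N, hN⟩
    exact ⟨fun n => by simp [hx], N, fun n hn => by simp [hN n hn]⟩

lemma W.eq_one_of_le {x : ∀ n, Tw n} (hx : x ∈ W) {m k : ℕ} (hkm : k ≤ m) (h : x m = 1) :
    x k = 1 := by
  induction m, hkm using Nat.le_induction with
  | base => exact h
  | succ m hm ih =>
    apply ih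
    rw [← hx.1 m, h, map_one]

lemma W.eq_one_of_ge {x : ∀ n, Tw n} {N : ℕ} (hN : ∀ n ≥ N, x (n + 1) = up n (x n)) (h : x N = 1)
    {m : ℕ} (hm : N ≤ m) : x m = 1 := by
  induction m, hm using Nat.le_induction with
  | base => exact h
  | succ m hm ih => rw [hN m hm, ih, map_one]

/-- The special elements of `W`, at level `N + 1`. -/
noncomputable def zz (d : D) (N : ℕ) : ∀ n, Tw n
  | 0 => 1
  | n + 1 => if n = N then sp d n else up n (zz d N n)

lemma zz_succ (d : D) (N n : ℕ) : zz d N (n + 1) = if n = N then sp d n else up n (zz d N n) := rfl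

lemma zz_le (d : D) (N : ℕ) : ∀ n ≤ N, zz d N n = 1 := by
  intro n hn
  induction n with
  | zero => rfl
  | succ n ih =>
    rw [zz_succ, if_neg (by omega), ih (by omega), map_one]

lemma zz_mem (d : D) (N : ℕ) : zz d N ∈ W := by
  refine ⟨fun n => ?_, N + 1, fun n hn => ?_⟩
  · rw [zz_succ]
    by_cases h : n = N
    · subst h
      rw [if_pos rfl, dn_sp, zz_le d n n le_rfl]
    · rw [if_neg h, dn_up]
  · rw [zz_succ, if_neg (by omega)]

lemma zz_ne_one {d : D} (hd : d ≠ 1) (N : ℕ) : zz d N ≠ 1 := by
  intro h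
  have h1 := congrFun h (N + 1)
  rw [zz_succ, if_pos rfl] at h1
  exact sp_ne_one hd N h1

lemma finite_sat (F : Finset W) : ∃ a b c : W, c ≠ 1 ∧ ∀ x ∈ F, x ≠ 1 → cm (cm x a) b = c := by
  classical
  have h1 : ∀ x : W, ∃ N, ∀ n ≥ N, x.1 (n + 1) = up n (x.1 n) := fun x => x.2.2
  choose N hN using h1
  let M := F.sup N
  let d : D := Equiv.swap 0 1
  let e : D := Equiv.swap 1 2
  have hde : cm d⁻¹ e ≠ 1 := by decide
  refine ⟨⟨zz d M, zz_mem d M⟩, ⟨zz e M, zz_mem e M⟩, ⟨zz (cm d⁻¹ e) M, zz_mem _ M⟩, ?_, ?_⟩
  · intro h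
    exact zz_ne_one hde M (congrArg Subtype.val h)
  · intro x hxF hx
    have hNM : N x ≤ M := Finset.le_sup (f := N) hxF
    have hst : ∀ n ≥ M, x.1 (n + 1) = up n (x.1 n) := fun n hn => hN x n (hNM.trans hn)
    have hxM : x.1 M ≠ 1 := by
      intro h
      apply hx
      apply Subtype.ext
      funext m
      rcases le_total m M with hm | hm
      · exact W.eq_one_of_le x.2 hm h
      · exact W.eq_one_of_ge hst h hm
    apply Subtype.ext
    funext n
    change cm (cm (x.1 n) (zz d M n)) (zz e M n) = zz (cm d⁻¹ e) M n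
    rcases le_or_gt n M with hn | hn
    · rw [zz_le d M n hn, zz_le e M n hn, zz_le _ M n hn]
      simp [cm]
    · have hn' : M + 1 ≤ n := hn
      induction n, hn' using Nat.le_induction with
      | base =>
        rw [zz_succ, zz_succ, zz_succ, if_pos rfl, if_pos rfl, if_pos rfl, hst M le_rfl]
        exact key' M _ hxM d e
      | succ n hn' ih =>
        have hne : n ≠ M := by omega
        rw [zz_succ, zz_succ, zz_succ, if_neg hne, if_neg hne, if_neg hne, hst n (by omega),
          ← ih (by omega), map_cm, map_cm]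

end Pool.Agent.TH787.WreathTower
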