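import Mathlib
import Pool.Agent.TH787.WreathTower

/-!
# The ultrapower of the wreath tower

It is topologizable, and no Hausdorff group topology on it has a nontrivial convergent sequence.
-/

set_option autoImplicit false

namespace Pool.Agent.TH787.WreathTower

open Filter Topology

/-- The ultrapower of `W` by a free ultrafilter on the natural numbers. -/
abbrev G : Type := (hyperfilter ℕ : Filter ℕ).Germ W

/-- The class of a sequence in the ultrapower. -/
noncomputable def cl (y : ℕ → W) : G := (y : (hyperfilter ℕ : Filter ℕ).Germ W)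

lemma cl_surj (g : G) : ∃ y : ℕ → W, cl y = g := Quotient.exists_rep g

lemma cl_eq {y z : ℕ → W} : cl y = cl z ↔ ∀ᶠ n in (hyperfilter ℕ : Filter ℕ), y n = z n :=
  Germ.coe_eq

lemma cl_one : cl (fun _ => 1) = 1 := rfl

lemma cl_mul (y z : ℕ → W) : cl (fun n => y n * z n) = cl y * cl z := rfl

lemma cl_inv (y : ℕ → W) : cl (fun n => (y n)⁻¹) = (cl y)⁻¹ := rfl

lemma cl_cm (y z : ℕ → W) : cl (fun n => cm (y n) (z n)) = cm (cl y) (cl z) := rfl

lemma cl_ne_one {y : ℕ → W} (h : ∀ n, y n ≠ 1) : cl y ≠ 1 := by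
  rw [← cl_one, Ne, cl_eq]
  intro h'
  obtain ⟨n, hn⟩ := h'.exists
  exact h n hn

/-- Countable saturation for the relevant type. -/
lemma countable_sat (s : ℕ → G) : ∃ a b c : G, c ≠ 1 ∧ ∀ j, s j ≠ 1 → cm (cm (s j) a) b = c := by
  classical
  choose y hy using fun j => cl_surj (s j)
  have h : ∀ n, ∃ a b c : W, c ≠ 1 ∧ ∀ x ∈ (Finset.range (n + 1)).image (fun j => y j n),
      x ≠ 1 → cm (cm x a) b = c := fun n => finite_sat _
  choose a b c hc hab using h
  refine ⟨cl a, cl b, cl c, cl_ne_one hc, fun j hj => ?_⟩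
  rw [← hy j] at hj ⊢
  rw [← cl_one, Ne, cl_eq] at hj
  rw [← cl_cm, ← cl_cm, cl_eq]
  have h1 : ∀ᶠ n in (hyperfilter ℕ : Filter ℕ), ¬ (y j n = 1) :=
    (Ultrafilter.eventually_not (f := hyperfilter ℕ)).mpr hj
  have h2 : ∀ᶠ n in (hyperfilter ℕ : Filter ℕ), j ≤ n := by
    apply (Nat.hyperfilter_le_atTop)
    exact eventually_ge_atTop j
  filter_upwards [h1, h2] with n hn1 hn2
  apply hab n _ _ hn1
  exact Finset.mem_image.mpr ⟨j, Finset.mem_range.mpr (by omega), rfl⟩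

/-- `G` is uncountable. -/
theorem uncountable_G : Uncountable G := by
  rw [← not_countable_iff]
  intro hc
  obtain ⟨s, hs⟩ := exists_surjective_nat G
  obtain ⟨a, b, c, hc1, h⟩ := countable_sat s
  have h2 : ∀ g : G, g ≠ 1 → cm (cm g a) b = c := by
    intro g hg
    obtain ⟨j, rfl⟩ := hs g
    exact h j hg
  by_cases ha : a = 1
  · have h3 := h2 c hc1
    rw [ha] at h3
    apply hc1
    rw [← h3]
    simp [cm]
  · have h3 := h2 a ha
    apply hc1
    rw [← h3]
    simp [cm]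

/-- In a Hausdorff group topology on `G` every convergent sequence is eventually constant. -/
theorem eventually_eq_of_tendsto [TopologicalSpace G] [IsTopologicalGroup G] [T2Space G]
    (s : ℕ → G) (x : G) (h : Tendsto s atTop (𝓝 x)) : ∀ᶠ n in atTop, s n = x := by
  obtain ⟨a, b, c, hc, hs⟩ := countable_sat (fun n => s n * x⁻¹)
  have hcont : Continuous (fun g : G => cm (cm (g * x⁻¹) a) b) := by
    unfold cm
    fun_prop
  have h1 : Tendsto (fun n => cm (cm (s n * x⁻¹) a) b) atTop (𝓝 1) := by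
    have h2 := (hcont.tendsto x).comp h
    have h3 : cm (cm (x * x⁻¹) a) b = 1 := by simp [cm]
    rw [h3] at h2
    exact h2
  have h4 : ∀ᶠ n in atTop, cm (cm (s n * x⁻¹) a) b ∈ ({c}ᶜ : Set G) :=
    h1 (isOpen_compl_singleton.mem_nhds (by simpa using hc.symm))
  filter_upwards [h4] with n hn
  by_contra hne
  apply hn
  exact hs n (fun h5 => hne (mul_inv_eq_one.mp h5))

/-- The basic subgroups, as sets. -/
def NN (e : ℕ → ℕ) : Set G :=
  {g | ∃ y : ℕ → W, cl y = g ∧ ∀ᶠ n in (hyperfilter ℕ : Filter ℕ), (y n).1 (e n) = 1}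

lemma NN_mono {e e' : ℕ → ℕ} (h : ∀ n, e n ≤ e' n) : NN e' ⊆ NN e := by
  rintro g ⟨y, hy, hn⟩
  refine ⟨y, hy, ?_⟩
  filter_upwards [hn] with n hn
  exact W.eq_one_of_le (y n).2 (h n) hn

lemma NN_one (e : ℕ → ℕ) : (1 : G) ∈ NN e :=
  ⟨fun _ => 1, cl_one, Eventually.of_forall fun _ => rfl⟩

lemma NN_mul (e : ℕ → ℕ) {g h : G} (hg : g ∈ NN e) (hh : h ∈ NN e) : g * h ∈ NN e := by
  obtain ⟨y, hy, hn⟩ := hg
  obtain ⟨z, hz, hm⟩ := hh
  refine ⟨fun n => y n * z n, by rw [cl_mul, hy, hz], ?_⟩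
  filter_upwards [hn, hm] with n hn hm
  change (y n).1 (e n) * (z n).1 (e n) = 1
  rw [hn, hm, one_mul]

lemma NN_inv (e : ℕ → ℕ) {g : G} (hg : g ∈ NN e) : g⁻¹ ∈ NN e := by
  obtain ⟨y, hy, hn⟩ := hg
  refine ⟨fun n => (y n)⁻¹, by rw [cl_inv, hy], ?_⟩
  filter_upwards [hn] with n hn
  change ((y n).1 (e n))⁻¹ = 1
  rw [hn, inv_one]

lemma NN_conj (e : ℕ → ℕ) (k : G) {g : G} (hg : g ∈ NN e) : k * g * k⁻¹ ∈ NN e := by
  obtain ⟨y, hy, hn⟩ := hg
  obtain ⟨z, hz⟩ := cl_surj k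
  refine ⟨fun n => z n * y n * (z n)⁻¹, ?_, ?_⟩
  · rw [cl_mul (fun n => z n * y n) (fun n => (z n)⁻¹), cl_mul, cl_inv, hy, hz]
  filter_upwards [hn] with n hn
  change (z n).1 (e n) * (y n).1 (e n) * ((z n).1 (e n))⁻¹ = 1
  rw [hn, mul_one, mul_inv_cancel]

/-- The group filter basis. -/
@[reducible] def basis : GroupFilterBasis G where
  sets := Set.range NN
  nonempty := ⟨NN 0, 0, rfl⟩
  inter_sets := by
    rintro _ _ ⟨e, rfl⟩ ⟨e', rfl⟩
    refine ⟨NN (fun n => max (e n) (e' n)), ⟨_, rfl⟩, Set.subset_inter ?_ ?_⟩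
    · exact NN_mono fun n => le_max_left _ _
    · exact NN_mono fun n => le_max_right _ _
  one' := by
    rintro _ ⟨e, rfl⟩
    exact NN_one e
  mul' := by
    rintro _ ⟨e, rfl⟩
    refine ⟨NN e, ⟨e, rfl⟩, ?_⟩
    rintro _ ⟨g, hg, h, hh, rfl⟩
    exact NN_mul e hg hh
  inv' := by
    rintro _ ⟨e, rfl⟩
    exact ⟨NN e, ⟨e, rfl⟩, fun g hg => NN_inv e hg⟩
  conj' := by
    rintro k _ ⟨e, rfl⟩
    exact ⟨NN e, ⟨e, rfl⟩, fun g hg => NN_conj e k hg⟩

lemma exists_not_mem_NN {g : G} (hg : g ≠ 1) : ∃ e, g ∉ NN e := by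
  classical
  obtain ⟨y, rfl⟩ := cl_surj g
  rw [← cl_one, Ne, cl_eq] at hg
  have h1 : ∀ᶠ n in (hyperfilter ℕ : Filter ℕ), ¬ (y n = 1) :=
    (Ultrafilter.eventually_not (f := hyperfilter ℕ)).mpr hg
  have h2 : ∀ n, ∃ k, y n ≠ 1 → (y n).1 k ≠ 1 := by
    intro n
    by_cases hn : y n = 1
    · exact ⟨0, fun h => absurd hn h⟩
    · by_contra hcon
      push Not at hcon
      apply hn
      apply Subtype.ext
      funext k
      exact (hcon k).2
  choose e he using h2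
  refine ⟨e, ?_⟩
  rintro ⟨z, hz, hzn⟩
  rw [cl_eq] at hz
  obtain ⟨n, hn1, hn2, hn3⟩ := (h1.and (hz.and hzn)).exists
  exact he n hn1 (hn2 ▸ hn3)

lemma exists_mem_NN (e : ℕ → ℕ) : ∃ g ∈ NN e, g ≠ 1 := by
  have hd : (Equiv.swap 0 1 : D) ≠ 1 := by decide
  refine ⟨cl fun n => ⟨zz (Equiv.swap 0 1) (e n), zz_mem _ _⟩, ⟨_, rfl, ?_⟩, ?_⟩
  · exact Eventually.of_forall fun n => zz_le _ _ _ le_rfl
  · apply cl_ne_one
    intro n h
    exact zz_ne_one hd (e n) (congrArg Subtype.val h)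

/-- `G` carries a nondiscrete Hausdorff group topology. -/
theorem topologizable : ∃ t : TopologicalSpace G, @IsTopologicalGroup G t _ ∧ @T2Space G t ∧
    ¬ @DiscreteTopology G t := by
  refine ⟨basis.topology, basis.isTopologicalGroup, ?_, ?_⟩
  · let _ := basis.topology
    have := basis.isTopologicalGroup
    apply IsTopologicalGroup.t2Space_of_one_sep
    intro x hx
    obtain ⟨e, he⟩ := exists_not_mem_NN hx
    exact ⟨NN e, basis.mem_nhds_one ⟨e, rfl⟩, he⟩
  · let _ := basis.topology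
    intro hdisc
    have h1 : ({1} : Set G) ∈ 𝓝 (1 : G) := by
      rw [nhds_discrete]
      exact Set.mem_singleton _
    rw [basis.nhds_one_eq] at h1
    obtain ⟨V, ⟨e, rfl⟩, hV⟩ := h1
    obtain ⟨g, hg, hne⟩ := exists_mem_NN e
    exact hne (hV hg)

instance finiteTw : ∀ n, Finite (Tw n)
  | 0 => (inferInstance : Finite PUnit.{1})
  | n + 1 => by
    have := finiteTw n
    exact (inferInstance : Finite (RegularWreathProduct D (Tw n)))

instance countableW : Countable W := by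
  classical
  have h1 : ∀ x : W, ∃ N, ∀ n ≥ N, x.1 (n + 1) = up n (x.1 n) := fun x => x.2.2
  choose N hN using h1
  let f : W → Σ n, Tw n := fun x => ⟨N x, x.1 (N x)⟩
  have hf : Function.Injective f := by
    intro x y hxy
    obtain ⟨h1, h2⟩ := Sigma.mk.inj_iff.mp hxy
    have h3 : x.1 (N x) = y.1 (N x) := by
      have : ∀ (m : ℕ), m = N y → HEq (x.1 (N x)) (y.1 m) → N x = m → x.1 (N x) = y.1 (N x) := by
        rintro m - hm rfl
        exact eq_of_heq hm
      exact this (N y) rfl h2 h1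
    have h4 : x * y⁻¹ = 1 := by
      apply Subtype.ext
      funext m
      have h5 : (x * y⁻¹ : W).1 (N x) = 1 := by
        change x.1 (N x) * (y.1 (N x))⁻¹ = 1
        rw [h3, mul_inv_cancel]
      rcases le_total m (N x) with hm | hm
      · exact W.eq_one_of_le (x * y⁻¹).2 hm h5
      · refine W.eq_one_of_ge ?_ h5 hm
        intro n hn
        change x.1 (n + 1) * (y.1 (n + 1))⁻¹ = up n (x.1 n * (y.1 n)⁻¹)
        rw [map_mul, map_inv, hN x n hn, hN y n (h1 ▸ hn)]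
    exact mul_inv_eq_one.mp h4
  exact hf.countable

theorem card_le : Cardinal.mk G ≤ Cardinal.continuum := by
  have h1 : Cardinal.mk G ≤ Cardinal.mk (ℕ → W) :=
    Cardinal.mk_le_of_surjective (f := cl) cl_surj
  refine h1.trans ?_
  have h2 : Cardinal.mk W ≤ Cardinal.aleph0 := Cardinal.mk_le_aleph0
  calc Cardinal.mk (ℕ → W) = Cardinal.mk W ^ Cardinal.mk ℕ := by simp
    _ ≤ Cardinal.aleph0 ^ Cardinal.aleph0 := by
        rw [Cardinal.mk_nat]
        exact Cardinal.power_le_power_right h2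
    _ = Cardinal.continuum := Cardinal.aleph0_power_aleph0

end Pool.Agent.TH787.WreathTower
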