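import Mathlib
import Pool.Agent.Results.MP_f79ffc_lc.AddUN

set_option autoImplicit false

open MeasureTheory Set Topology Filter
open scoped ENNReal

namespace Pool.Agent.TH787.UNDigits

open Pool.Agent.Results.MP_f79ffc_lc.AddUN

/-- A universally null set in `Code × ℝ` whose projection to the line is not Lebesgue null. -/
lemma exists_UN_pair : ∃ U : Set (Code × ℝ), UN U ∧ ¬ Null (Prod.snd '' U) := by
  obtain ⟨X0, hX0, hcard⟩ := nonC_witness Null not_null_univ
  obtain ⟨O, hO, hB⟩ := exists_basis_seq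
  have hc : Cardinal.mk ((nonC Null).ord.ToType) = Cardinal.mk X0 := by
    rw [Cardinal.mk_ord_toType, hcard]
  obtain ⟨e⟩ := Cardinal.eq.mp hc
  have h1 : ∀ i, ∃ a : Code, volume (Hset O a) = 0 ∧ (fun k => (e k : ℝ)) '' Iio i ⊆ Hset O a := by
    intro i
    apply exists_code O hO hB
    apply mem_of_lt_nonC
    exact lt_of_le_of_lt Cardinal.mk_image_le (mk_Iio_lt' _ i)
  choose a ha1 ha2 using h1
  set g : (nonC Null).ord.ToType → Code × ℝ := fun i => (a i, (e i : ℝ)) with hg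
  have hginj : Function.Injective g := by
    intro i j hij
    have : (e i : ℝ) = e j := congrArg Prod.snd hij
    exact e.injective (Subtype.ext this)
  have hUN : UN (range g) := by
    intro μ hμ hat
    have hm : MeasurableSet {q : (Code × ℝ) × ℝ |
        ¬ (volume (Hset O q.1.1) = 0 ∧ q.2 ∈ Hset O q.1.1)} := by
      apply MeasurableSet.compl
      apply MeasurableSet.inter
      · have h3 : Measurable (fun b : Code => volume (Hset O b)) := by
          have := measurable_measure_prodMk_left (ν := (volume : Measure ℝ)) (measurableSet_Hset O hO)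
          exact this
        exact (h3.comp (measurable_fst.comp measurable_fst)) (measurableSet_singleton 0)
      · have h4 : Measurable (fun q : (Code × ℝ) × ℝ => (q.1.1, q.2)) :=
          (measurable_fst.comp measurable_fst).prodMk measurable_snd
        exact h4 (measurableSet_Hset O hO)
    have h5 : ∀ᵐ q ∂μ, ∀ᵐ x ∂(volume : Measure ℝ),
        ¬ (volume (Hset O q.1) = 0 ∧ x ∈ Hset O q.1) := by
      refine Filter.Eventually.of_forall fun q => ?_
      by_cases h : volume (Hset O q.1) = 0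
      · have h6 : ∀ᵐ x ∂(volume : Measure ℝ), x ∉ Hset O q.1 := measure_eq_zero_iff_ae_notMem.mp h
        filter_upwards [h6] with x hx hcon
        exact hx hcon.2
      · exact Filter.Eventually.of_forall fun x hcon => h hcon.1
    rw [Measure.ae_ae_comm hm] at h5
    obtain ⟨x0, hx0, hx1⟩ : ∃ x0 ∈ X0, ∀ᵐ q ∂μ, ¬ (volume (Hset O q.1) = 0 ∧ x0 ∈ Hset O q.1) := by
      by_contra hcon
      push Not at hcon
      apply hX0
      refine measure_mono_null ?_ (ae_iff.mp h5)
      intro x hx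
      simp only [mem_ofPred_eq]
      exact fun hh => (hcon x hx) (by
        filter_upwards [hh] with q hq
        tauto)
    set i0 := e.symm ⟨x0, hx0⟩ with hi0
    have hei0 : (e i0 : ℝ) = x0 := by simp [hi0]
    have hsub : range g ⊆ {q : Code × ℝ | volume (Hset O q.1) = 0 ∧ x0 ∈ Hset O q.1} ∪
        (g '' Iio i0 ∪ {g i0}) := by
      rintro _ ⟨i, rfl⟩
      rcases lt_trichotomy i0 i with h | h | h
      · left
        refine ⟨ha1 i, ha2 i ⟨i0, h, ?_⟩⟩
        exact hei0
      · right; right; rw [h]; rfl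
      · right; left; exact ⟨i, h, rfl⟩
    refine measure_mono_null hsub (measure_union_null ?_ (measure_union_null ?_ (hat _)))
    · have := ae_iff.mp hx1
      simpa using this
    · exact UN_of_lt_non (g '' Iio i0)
        (lt_of_le_of_lt Cardinal.mk_image_le (mk_Iio_lt' _ i0)) μ hμ hat
  refine ⟨range g, hUN, ?_⟩
  have : Prod.snd '' range g = X0 := by
    ext x
    constructor
    · rintro ⟨_, ⟨i, rfl⟩, rfl⟩
      exact (e i).2
    · intro hx
      exact ⟨g (e.symm ⟨x, hx⟩), ⟨_, rfl⟩, by simp [hg]⟩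
  rw [this]
  exact hX0

/-- The same with the second coordinates in the unit interval. -/
lemma exists_UN_unit : ∃ U : Set (Code × ℝ), UN U ∧ (∀ u ∈ U, u.2 ∈ Ico (0 : ℝ) 1) ∧
    volume (Prod.snd '' U) ≠ 0 := by
  obtain ⟨U, hU, hN⟩ := exists_UN_pair
  have h1 : ∃ n : ℤ, volume (Prod.snd '' U ∩ Ico (n : ℝ) (n + 1)) ≠ 0 := by
    by_contra hcon
    push Not at hcon
    apply hN
    have h2 : Prod.snd '' U ⊆ ⋃ n : ℤ, Prod.snd '' U ∩ Ico (n : ℝ) (n + 1) := by
      intro x hx
      exact mem_iUnion.mpr ⟨⌊x⌋, hx, Int.floor_le x, Int.lt_floor_add_one x⟩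
    exact measure_mono_null h2 (measure_iUnion_null hcon)
  obtain ⟨n, hn⟩ := h1
  refine ⟨(fun u : Code × ℝ => (u.1, u.2 - n)) '' {u ∈ U | u.2 ∈ Ico (n : ℝ) (n + 1)}, ?_, ?_, ?_⟩
  · apply hU.of_map (Φ := fun u : Code × ℝ => (u.1, u.2 + n))
      (measurable_fst.prodMk (measurable_snd.add_const _))
    · rintro _ ⟨u, hu, rfl⟩
      simpa using hu.1
    · intro u _ v _ huv
      simp only [Prod.mk.injEq, add_left_inj] at huv
      exact Prod.ext huv.1 huv.2
  · rintro _ ⟨u, ⟨-, h1, h2⟩, rfl⟩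
    constructor
    · show 0 ≤ u.2 - n
      linarith
    · show u.2 - n < 1
      linarith
  · have h3 : Prod.snd '' U ∩ Ico (n : ℝ) (n + 1) = (fun x : ℝ => x + n) ''
        (Prod.snd '' ((fun u : Code × ℝ => (u.1, u.2 - n)) ''
          {u ∈ U | u.2 ∈ Ico (n : ℝ) (n + 1)})) := by
      ext x
      constructor
      · rintro ⟨⟨u, hu, rfl⟩, hx⟩
        exact ⟨_, ⟨_, ⟨u, ⟨hu, hx⟩, rfl⟩, rfl⟩, by simp⟩
      · rintro ⟨_, ⟨_, ⟨u, ⟨hu, hx⟩, rfl⟩, rfl⟩, rfl⟩
        simp only [sub_add_cancel]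
        exact ⟨⟨u, hu, rfl⟩, hx⟩
    rw [h3, Set.image_add_right, measure_preimage_add_right] at hn
    exact hn

open Real

/-- The digit sequence is not eventually equal to the last digit. -/
def Good (d : ℕ → Fin 3) : Prop := ∀ N, ∃ n ≥ N, d n ≠ 2

lemma ofDigits_lt_one {d : ℕ → Fin 3} (h : ∃ n, d n ≠ 2) : ofDigits d < 1 := by
  obtain ⟨n, hn⟩ := h
  have h1 := ofDigits_const_last_eq_one' (b := 3) (by norm_num)
  rw [← h1]
  unfold ofDigits
  apply Summable.tsum_lt_tsum (i := n) _ _ summable_ofDigitsTerm summable_ofDigitsTerm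
  · intro k
    unfold ofDigitsTerm
    apply mul_le_mul_of_nonneg_right _ (by positivity)
    have : ((d k : ℕ)) ≤ 2 := by have := (d k).2; omega
    show ((d k : ℕ) : ℝ) ≤ ((2 : ℕ) : ℝ)
    exact_mod_cast this
  · unfold ofDigitsTerm
    apply mul_lt_mul_of_pos_right _ (by positivity)
    have : ((d n : ℕ)) < 2 := by
      have h2 := (d n).2
      have h3 : (d n : ℕ) ≠ 2 := fun h => hn (Fin.ext h)
      omega
    show ((d n : ℕ) : ℝ) < ((2 : ℕ) : ℝ)
    exact_mod_cast this

lemma Good.mem {d : ℕ → Fin 3} (hd : Good d) : ofDigits d ∈ Ico (0 : ℝ) 1 :=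
  ⟨ofDigits_nonneg d, ofDigits_lt_one (let ⟨n, _, h⟩ := hd 0; ⟨n, h⟩)⟩

lemma Good.shift {d : ℕ → Fin 3} (hd : Good d) (k : ℕ) : Good (fun i => d (i + k)) := by
  intro N
  obtain ⟨n, hn, h⟩ := hd (N + k)
  refine ⟨n - k, by omega, ?_⟩
  show d (n - k + k) ≠ 2
  rwa [Nat.sub_add_cancel (by omega)]

lemma sum_nat (d : ℕ → Fin 3) (n : ℕ) :
    ∃ M : ℕ, ((3 : ℕ) : ℝ) ^ n * ∑ i ∈ Finset.range n, ofDigitsTerm d i = M := by
  induction n with
  | zero => exact ⟨0, by simp⟩
  | succ n ih =>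
    obtain ⟨M, hM⟩ := ih
    refine ⟨3 * M + d n, ?_⟩
    rw [Finset.sum_range_succ, mul_add, pow_succ, mul_assoc, mul_comm (((3 : ℕ) : ℝ)) (∑ i ∈ _, _),
      ← mul_assoc, hM, ofDigitsTerm]
    push_cast
    have : (3 : ℝ) ^ n * 3 * ((d n : ℝ) * ((3 : ℝ) ^ (n + 1))⁻¹) = d n := by
      rw [← pow_succ, mul_left_comm, mul_inv_cancel₀ (by positivity), mul_one]
    rw [this]
    ring

lemma digits_ofDigits {d : ℕ → Fin 3} (hd : Good d) : digits (ofDigits d) 3 = d := by
  funext n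
  obtain ⟨M, hM⟩ := sum_nat d n
  have h1 := ofDigits_eq_sum_add_ofDigits d (n + 1)
  have ht := (hd.shift (n + 1)).mem
  set t := ofDigits (fun i => d (i + (n + 1))) with htdef
  have h2 : ofDigits d * ((3 : ℕ) : ℝ) ^ (n + 1) = ((3 * M + d n : ℕ) : ℝ) + t := by
    rw [h1, Finset.sum_range_succ, ofDigitsTerm]
    have e1 : ((3 : ℕ) : ℝ) ^ (n + 1) = 3 ^ n * 3 := by push_cast; rw [pow_succ]
    have e2 : (∑ i ∈ Finset.range n, ofDigitsTerm d i) * 3 ^ n = M := by
      rw [← hM]; push_cast; ring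
    rw [e1]
    have h3 : (3 : ℝ) ^ n ≠ 0 := by positivity
    push_cast
    field_simp
    linear_combination 3 * e2
  unfold digits
  rw [h2]
  have h3 : ⌊((3 * M + d n : ℕ) : ℝ) + t⌋₊ = 3 * M + d n := by
    rw [Nat.floor_eq_iff (by have := ht.1; positivity)]
    constructor
    · linarith [ht.1]
    · linarith [ht.2]
  rw [h3]
  apply Fin.ext
  simp only [Fin.ofNat]
  have := (d n).2
  omega

end Pool.Agent.TH787.UNDigits
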