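import Mathlib
import Pool.Agent.TH787.UNDigits

set_option autoImplicit false

open MeasureTheory Set Topology Filter
open scoped ENNReal

namespace Pool.Agent.TH787.GaugeSet

open Pool.Agent.Results.MP_f79ffc_lc.AddUN Pool.Agent.TH787.UNDigits Real

section coding

variable (J : ℕ → Prop) [DecidablePred J]

/-- Interleaving of a code and of the ternary digits of `x`. -/
noncomputable def dig (u : Code × ℝ) : ℕ → Fin 3 := fun n =>
  if J n then (if u.1 (Nat.unpair (Nat.count J n)).1 (Nat.unpair (Nat.count J n)).2 then 1 else 0)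
  else digits u.2 3 (Nat.count (fun k => ¬ J k) n)

/-- The coding map. -/
noncomputable def enc (u : Code × ℝ) : ℝ := ofDigits (dig J u)

/-- The projection which forgets the code. -/
noncomputable def phi (e : ℝ) : ℝ := ofDigits (fun i => digits e 3 (Nat.nth (fun k => ¬ J k) i))

/-- The decoding map. -/
noncomputable def dec (e : ℝ) : Code × ℝ :=
  (fun k l => decide (digits e 3 (Nat.nth J (Nat.pair k l)) = 1), phi J e)

variable {J}

lemma good_dig (hJ : {n | J n}.Infinite) (u : Code × ℝ) : Good (dig J u) := by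
  intro N
  obtain ⟨n, hn, hN⟩ := hJ.exists_gt N
  refine ⟨n, hN.le, ?_⟩
  unfold dig
  rw [if_pos (show J n from hn)]
  split_ifs <;> decide

lemma dec_enc (hJ : {n | J n}.Infinite) (hJ' : {n | ¬ J n}.Infinite) (u : Code × ℝ)
    (hu : u.2 ∈ Ico (0 : ℝ) 1) : dec J (enc J u) = u := by
  have h1 : digits (enc J u) 3 = dig J u := digits_ofDigits (good_dig hJ u)
  apply Prod.ext
  · funext k l
    simp only [dec, h1]
    have h2 : J (Nat.nth J (Nat.pair k l)) := Nat.nth_mem_of_infinite hJ _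
    unfold dig
    rw [if_pos h2, Nat.count_nth_of_infinite hJ, Nat.unpair_pair]
    dsimp only
    cases u.1 k l <;> simp
  · simp only [dec, phi, h1]
    have h3 : (fun i => dig J u (Nat.nth (fun k => ¬ J k) i)) = digits u.2 3 := by
      funext i
      have h2 : ¬ J (Nat.nth (fun k => ¬ J k) i) := Nat.nth_mem_of_infinite hJ' i
      unfold dig
      rw [if_neg h2, Nat.count_nth_of_infinite hJ']
    rw [h3]
    exact ofDigits_digits (by norm_num) hu

lemma measurable_digit (n : ℕ) : Measurable (fun e : ℝ => digits e 3 n) := by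
  unfold digits
  have h1 : Measurable (fun e : ℝ => ⌊e * ((3 : ℕ) : ℝ) ^ (n + 1)⌋₊) :=
    Nat.measurable_floor.comp (measurable_id.mul_const _)
  exact (measurable_from_top (f := fun k : ℕ => (Fin.ofNat 3 k))).comp h1

lemma measurable_phi : Measurable (phi J) := by
  unfold phi
  exact continuous_ofDigits.measurable.comp
    (measurable_pi_lambda _ fun i => measurable_digit _)

lemma measurable_dec : Measurable (dec J) := by
  refine Measurable.prodMk ?_ measurable_phi
  refine measurable_pi_lambda _ fun k => measurable_pi_lambda _ fun l => ?_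
  exact (measurable_from_top (f := fun d : Fin 3 => decide (d = 1))).comp (measurable_digit _)

lemma enc_mem (hJ : {n | J n}.Infinite) (u : Code × ℝ) : enc J u ∈ Ico (0 : ℝ) 1 :=
  (good_dig hJ u).mem

/-- Points in the same ternary cell have the same first digits. -/
lemma digits_eq_of_floor {e e' : ℝ} {k : ℕ} (h : ⌊e * 3 ^ k⌋₊ = ⌊e' * 3 ^ k⌋₊) :
    ∀ i < k, digits e 3 i = digits e' 3 i := by
  intro i hi
  have key : ∀ y : ℝ, ⌊y * ((3 : ℕ) : ℝ) ^ (i + 1)⌋₊ = ⌊y * 3 ^ k⌋₊ / 3 ^ (k - (i + 1)) := by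
    intro y
    have h1 : y * ((3 : ℕ) : ℝ) ^ (i + 1) = y * 3 ^ k / ((3 ^ (k - (i + 1)) : ℕ) : ℝ) := by
      push_cast
      rw [eq_div_iff (by positivity), mul_assoc, ← pow_add]
      congr 2
      omega
    rw [h1, Nat.floor_div_natCast]
  unfold digits
  rw [key, key, h]

lemma count_add (k : ℕ) : Nat.count J k + Nat.count (fun n => ¬ J n) k = k := by
  induction k with
  | zero => simp
  | succ k ih =>
    rw [Nat.count_succ, Nat.count_succ]
    by_cases h : J k
    · simp only [h, if_true, not_true, if_false]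
      omega
    · simp only [h, if_false, not_false_eq_true, if_true]
      omega

/-- The image of a ternary cell is small. -/
lemma volume_cell (k : ℕ) (c : ℕ) (A : Set ℝ) (hA : ∀ e ∈ A, ⌊e * 3 ^ k⌋₊ = c) :
    volume (phi J '' A) ≤ ENNReal.ofReal (3 ^ (Nat.count J k) * (3 ^ k)⁻¹) := by
  refine (Real.volume_le_diam _).trans ?_
  apply Metric.ediam_le
  rintro _ ⟨e, he, rfl⟩ _ ⟨e', he', rfl⟩
  rw [edist_dist]
  apply ENNReal.ofReal_le_ofReal
  rw [Real.dist_eq]
  have h1 := digits_eq_of_floor ((hA e he).trans (hA e' he').symm)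
  have h2 : |phi J e - phi J e'| ≤ (((3 : ℕ) : ℝ) ^ (Nat.count (fun n => ¬ J n) k))⁻¹ := by
    apply abs_ofDigits_sub_ofDigits_le
    intro i hi
    exact h1 _ (Nat.nth_lt_of_lt_count hi)
  refine h2.trans (le_of_eq ?_)
  have h3 := count_add (J := J) k
  have h4 : (3 : ℝ) ^ k = 3 ^ (Nat.count J k) * 3 ^ (Nat.count (fun n => ¬ J n) k) := by
    rw [← pow_add, h3]
  rw [h4]
  push_cast
  have : (3 : ℝ) ^ (Nat.count J k) ≠ 0 := by positivity
  field_simp

lemma volume_small (k : ℕ) (A : Set ℝ) (hA : A ⊆ Ico (0 : ℝ) 1)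
    (hd : ∀ e ∈ A, ∀ e' ∈ A, |e - e'| ≤ (3 ^ k)⁻¹) :
    volume (phi J '' A) ≤ 3 * ENNReal.ofReal (3 ^ (Nat.count J k) * (3 ^ k)⁻¹) := by
  rcases A.eq_empty_or_nonempty with rfl | ⟨a, ha⟩
  · simp
  set c := ⌊a * 3 ^ k⌋₊ with hc
  have hcov : A ⊆ (({e ∈ A | ⌊e * 3 ^ k⌋₊ = c - 1} ∪ {e ∈ A | ⌊e * 3 ^ k⌋₊ = c}) ∪
      {e ∈ A | ⌊e * 3 ^ k⌋₊ = c + 1}) := by
    intro e he
    have h1 := hd e he a ha
    have h3 : (0 : ℝ) < 3 ^ k := by positivity
    have h2 : |e * 3 ^ k - a * 3 ^ k| ≤ 1 := by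
      rw [← sub_mul, abs_mul, abs_of_pos h3]
      calc |e - a| * 3 ^ k ≤ (3 ^ k)⁻¹ * 3 ^ k := mul_le_mul_of_nonneg_right h1 h3.le
        _ = 1 := inv_mul_cancel₀ h3.ne'
    rw [abs_le] at h2
    have ha0 : 0 ≤ a * 3 ^ k := mul_nonneg (hA ha).1 h3.le
    have he0 : 0 ≤ e * 3 ^ k := mul_nonneg (hA he).1 h3.le
    have h4 : ⌊e * 3 ^ k⌋₊ ≤ c + 1 := by
      rw [hc, ← Nat.floor_add_one ha0]
      exact Nat.floor_mono (by linarith)
    have h5 : c ≤ ⌊e * 3 ^ k⌋₊ + 1 := by
      rw [hc, ← Nat.floor_add_one he0]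
      exact Nat.floor_mono (by linarith)
    have h6 : ⌊e * 3 ^ k⌋₊ = c - 1 ∨ ⌊e * 3 ^ k⌋₊ = c ∨ ⌊e * 3 ^ k⌋₊ = c + 1 := by omega
    rcases h6 with h | h | h
    · exact Or.inl (Or.inl ⟨he, h⟩)
    · exact Or.inl (Or.inr ⟨he, h⟩)
    · exact Or.inr ⟨he, h⟩
  have h7 := measure_mono (μ := volume) (image_mono (f := phi J) hcov)
  rw [image_union, image_union] at h7
  refine h7.trans ((measure_union_le _ _).trans ?_)
  have h8 : (3 : ℝ≥0∞) * ENNReal.ofReal (3 ^ (Nat.count J k) * (3 ^ k)⁻¹) =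
      (ENNReal.ofReal (3 ^ (Nat.count J k) * (3 ^ k)⁻¹) +
        ENNReal.ofReal (3 ^ (Nat.count J k) * (3 ^ k)⁻¹)) +
        ENNReal.ofReal (3 ^ (Nat.count J k) * (3 ^ k)⁻¹) := by
    rw [show (3 : ℝ≥0∞) = 1 + 1 + 1 by norm_num, add_mul, add_mul, one_mul]
  rw [h8]
  refine add_le_add ((measure_union_le _ _).trans (add_le_add ?_ ?_)) ?_
  · exact volume_cell k _ _ fun e he => he.2
  · exact volume_cell k _ _ fun e he => he.2
  · exact volume_cell k _ _ fun e he => he.2

end coding

/-- A sparse infinite set of positions, adapted to a function `f` with `f t / t → ∞`. -/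
lemma exists_sparse (f : ℝ → ℝ) (hf : Tendsto (fun t => f t / t) (𝓝[>] 0) atTop) :
    ∃ J : ℕ → Prop, {n | J n}.Infinite ∧ {n | ¬ J n}.Infinite ∧ ∃ k₀ : ℕ,
      ∀ (_ : DecidablePred J) (k : ℕ), k₀ ≤ k → ∀ t : ℝ, 0 < t → t ≤ (3 ^ k)⁻¹ →
        3 ^ (Nat.count J k) * t ≤ f t := by
  have h1 : ∀ m : ℕ, ∃ K : ℕ, ∀ t : ℝ, 0 < t → t ≤ (3 ^ K)⁻¹ → 3 ^ m * t ≤ f t := by
    intro m
    have h2 := (tendsto_atTop.mp hf) (3 ^ m)
    rw [eventually_nhdsWithin_iff, Metric.eventually_nhds_iff] at h2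
    obtain ⟨ε, hε, h2⟩ := h2
    obtain ⟨K, hK⟩ := exists_pow_lt_of_lt_one hε (show (3 : ℝ)⁻¹ < 1 by norm_num)
    refine ⟨K, fun t ht htK => ?_⟩
    have h3 : dist t 0 < ε := by
      rw [Real.dist_eq, sub_zero, abs_of_pos ht]
      rw [← inv_pow] at htK
      exact htK.trans_lt hK
    have h4 := h2 h3 ht
    rwa [le_div_iff₀ ht] at h4
  choose K₀ hK₀ using h1
  let K : ℕ → ℕ := fun m => 2 * m + ∑ i ∈ Finset.range (m + 1), K₀ i
  have hKlt : ∀ m, K m + 2 ≤ K (m + 1) := by
    intro m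
    simp only [K]
    rw [Finset.sum_range_succ _ (m + 1)]
    omega
  have hKm : StrictMono K := strictMono_nat_of_lt_succ fun m => by have := hKlt m; omega
  have hK : ∀ m, ∀ t : ℝ, 0 < t → t ≤ (3 ^ (K m))⁻¹ → 3 ^ m * t ≤ f t := by
    intro m t ht htK
    apply hK₀ m t ht
    refine htK.trans ?_
    apply inv_anti₀ (by positivity)
    apply pow_le_pow_right₀ (by norm_num)
    simp only [K]
    have : K₀ m ≤ ∑ i ∈ Finset.range (m + 1), K₀ i :=
      Finset.single_le_sum (f := K₀) (fun _ _ => Nat.zero_le _)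
        (Finset.mem_range.mpr (Nat.lt_succ_self m))
    omega
  refine ⟨fun n => ∃ j, n = K (j + 1), ?_, ?_, K 0, ?_⟩
  · apply Set.infinite_of_injective_forall_mem (f := fun j => K (j + 1))
    · intro i j hij
      have := hKm.injective hij
      omega
    · intro j
      exact ⟨j, rfl⟩
  · apply Set.infinite_of_injective_forall_mem (f := fun j => K (j + 1) + 1)
    · intro i j hij
      simp only [add_left_inj] at hij
      have := hKm.injective hij
      omega
    · rintro j ⟨i, hi⟩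
      have h5 : K (j + 1) < K (i + 1) := by omega
      have h6 : j + 1 < i + 1 := hKm.lt_iff_lt.mp h5
      have h7 : K (j + 1 + 1) ≤ K (i + 1) := hKm.monotone (by omega)
      have h8 := hKlt (j + 1)
      omega
  · intro inst k hk t ht htk
    have hcount : Nat.count (fun n => ∃ j, n = K (j + 1)) k = 0 ∨
        K (Nat.count (fun n => ∃ j, n = K (j + 1)) k) < k := by
      have key : ∀ m, Nat.count (fun n => ∃ j, n = K (j + 1)) (K (m + 1)) ≤ m := by
        intro m
        rw [Nat.count_eq_card_filter_range]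
        calc _ ≤ ((Finset.range m).image fun j => K (j + 1)).card := by
              apply Finset.card_le_card
              intro n hn
              simp only [Finset.mem_filter, Finset.mem_range, Finset.mem_image] at hn ⊢
              obtain ⟨hn1, j, rfl⟩ := hn
              exact ⟨j, by have := hKm.lt_iff_lt.mp hn1; omega, rfl⟩
          _ ≤ m := Finset.card_image_le.trans (by simp)
      clear hk htk
      induction k with
      | zero => left; simp
      | succ k ih =>
        rw [Nat.count_succ]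
        split_ifs with h
        · right
          obtain ⟨j, rfl⟩ := h
          have := key j
          have h9 : K (Nat.count (fun n => ∃ j, n = K (j + 1)) (K (j + 1)) + 1) ≤ K (j + 1) :=
            hKm.monotone (by omega)
          omega
        · rcases ih with h | h
          · left; simpa using h
          · right
            simp only [add_zero]
            omega
    rcases hcount with h | h
    · rw [h]
      apply hK 0 t ht
      refine htk.trans ?_
      exact inv_anti₀ (by positivity) (pow_le_pow_right₀ (by norm_num) hk)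
    · apply hK _ t ht
      refine htk.trans ?_
      exact inv_anti₀ (by positivity) (pow_le_pow_right₀ (by norm_num) h.le)

/-- For a gauge-like function `f` with `f t / t → ∞` there are a universally null set `E` in the
unit interval, a map `φ` and constants such that small pieces of `E` have small images, while the
image of `E` is not null. -/
theorem exists_set (f : ℝ → ℝ) (hf0 : f 0 = 0)
    (hf : Tendsto (fun t => f t / t) (𝓝[>] 0) atTop) :
    ∃ (E : Set ℝ) (φ : ℝ → ℝ) (δ : ℝ), 0 < δ ∧ UN E ∧ volume (φ '' E) ≠ 0 ∧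
      ∀ A ⊆ E, ∀ t : ℝ, (∀ e ∈ A, ∀ e' ∈ A, |e - e'| ≤ t) → 0 ≤ t → t ≤ δ →
        volume (φ '' A) ≤ 9 * ENNReal.ofReal (f t) := by
  classical
  obtain ⟨J, hJ, hJ', k₀, hk₀⟩ := exists_sparse f hf
  obtain ⟨U, hU, hU1, hU2⟩ := exists_UN_unit
  refine ⟨enc J '' U, phi J, (3 ^ k₀)⁻¹, by positivity, ?_, ?_, ?_⟩
  · apply hU.of_map (Φ := dec J) measurable_dec
    · rintro _ ⟨u, hu, rfl⟩
      rwa [dec_enc hJ hJ' u (hU1 u hu)]
    · rintro _ ⟨u, hu, rfl⟩ _ ⟨v, hv, rfl⟩ h
      rw [dec_enc hJ hJ' u (hU1 u hu), dec_enc hJ hJ' v (hU1 v hv)] at h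
      rw [h]
  · have : phi J '' (enc J '' U) = Prod.snd '' U := by
      rw [image_image]
      apply image_congr
      intro u hu
      exact congrArg Prod.snd (dec_enc hJ hJ' u (hU1 u hu))
    rwa [this]
  · intro A hAE t hA ht0 htδ
    have hAI : A ⊆ Ico (0 : ℝ) 1 := by
      intro e he
      obtain ⟨u, -, rfl⟩ := hAE he
      exact enc_mem hJ u
    rcases ht0.eq_or_lt with rfl | htpos
    · rw [hf0, ENNReal.ofReal_zero, mul_zero]
      have hsub : (phi J '' A).Subsingleton := by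
        rintro _ ⟨e, he, rfl⟩ _ ⟨e', he', rfl⟩
        have := hA e he e' he'
        have h1 : e - e' = 0 := abs_eq_zero.mp (le_antisymm this (abs_nonneg _))
        rw [sub_eq_zero.mp h1]
      exact hsub.measure_zero volume |>.le
    · -- choose the scale
      have hex : ∃ k : ℕ, ((3 : ℝ) ^ k)⁻¹ < t := by
        obtain ⟨K, hK⟩ := exists_pow_lt_of_lt_one htpos (show (3 : ℝ)⁻¹ < 1 by norm_num)
        exact ⟨K, by rwa [← inv_pow]⟩
      set n := Nat.find hex with hn
      have hn1 : ((3 : ℝ) ^ n)⁻¹ < t := Nat.find_spec hex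
      have hn2 : k₀ < n := by
        by_contra hcon
        have h2 : ((3 : ℝ) ^ k₀)⁻¹ ≤ ((3 : ℝ) ^ n)⁻¹ :=
          inv_anti₀ (by positivity) (pow_le_pow_right₀ (by norm_num) (not_lt.mp hcon))
        linarith
      obtain ⟨k, hk⟩ : ∃ k, n = k + 1 := ⟨n - 1, by omega⟩
      have hk1 : t ≤ ((3 : ℝ) ^ k)⁻¹ := not_lt.mp (Nat.find_min hex (by omega : k < n))
      have h3 := volume_small (J := J) k A hAI (fun e he e' he' => (hA e he e' he').trans hk1)
      refine h3.trans ?_
      have h4 := hk₀ inferInstance k (by omega) t htpos hk1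
      have h5 : ((3 : ℝ) ^ k)⁻¹ ≤ 3 * t := by
        rw [hk, pow_succ, mul_inv] at hn1
        linarith
      rw [show (3 : ℝ≥0∞) = ENNReal.ofReal 3 by simp, show (9 : ℝ≥0∞) = ENNReal.ofReal 9 by simp,
        ← ENNReal.ofReal_mul (by norm_num), ← ENNReal.ofReal_mul (by norm_num)]
      apply ENNReal.ofReal_le_ofReal
      have h6 : (3 : ℝ) ^ (Nat.count J k) * ((3 : ℝ) ^ k)⁻¹ ≤ 3 ^ (Nat.count J k) * (3 * t) :=
        mul_le_mul_of_nonneg_left h5 (by positivity)
      nlinarith

end Pool.Agent.TH787.GaugeSet
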