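import Mathlib

/-!
# The relation module extension of a group

For a group `Q` and a prime `p` the group `GG p Q` consists of the pairs `(v, x)`, where `x ∈ Q`
and `v` is an element of the free `F_p[Q]`-module with basis `(e_s)`, `s ∈ Q`, whose image under
`e_s ↦ s - 1` is `x - 1`. It is an extension of an elementary abelian `p`-group by `Q`, all its
elements of order `p` are in the kernel, and the stabilizers in `Q` of the nontrivial elements of
the kernel are finite.
-/

set_option autoImplicit false

namespace Pool.Agent.TH787.RelMod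

open Finsupp

variable (p : ℕ) (Q : Type) [Group Q]

/-- left translation on the free module -/
noncomputable def sh (x : Q) : ((Q × Q) →₀ ZMod p) →+ ((Q × Q) →₀ ZMod p) :=
  Finsupp.mapDomain.addMonoidHom (fun t => (t.1, x * t.2))

/-- left translation on the group algebra -/
noncomputable def sa (x : Q) : (Q →₀ ZMod p) →+ (Q →₀ ZMod p) :=
  Finsupp.mapDomain.addMonoidHom (fun t => x * t)

/-- the map `q e_s ↦ q (s - 1)` -/
noncomputable def phi : ((Q × Q) →₀ ZMod p) →+ (Q →₀ ZMod p) :=
  Finsupp.mapDomain.addMonoidHom (fun t => t.2 * t.1) -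
    Finsupp.mapDomain.addMonoidHom (fun t => t.2)

variable {p Q}

theorem sh_single (x : Q) (t : Q × Q) (a : ZMod p) :
    sh p Q x (single t a) = single (t.1, x * t.2) a := by
  simp [sh, mapDomain_single]

theorem sa_single (x : Q) (t : Q) (a : ZMod p) : sa p Q x (single t a) = single (x * t) a := by
  simp [sa, mapDomain_single]

theorem phi_single (t : Q × Q) (a : ZMod p) :
    phi p Q (single t a) = single (t.2 * t.1) a - single t.2 a := by
  simp [phi, mapDomain_single]

theorem sh_one (v : (Q × Q) →₀ ZMod p) : sh p Q 1 v = v := by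
  have : sh p Q 1 = AddMonoidHom.id _ := by
    apply Finsupp.addHom_ext
    intro t a
    rw [sh_single, one_mul]
    rfl
  rw [this]
  rfl

theorem sh_mul (x y : Q) (v : (Q × Q) →₀ ZMod p) : sh p Q (x * y) v = sh p Q x (sh p Q y v) := by
  have : sh p Q (x * y) = (sh p Q x).comp (sh p Q y) := by
    apply Finsupp.addHom_ext
    intro t a
    rw [AddMonoidHom.comp_apply, sh_single, sh_single, sh_single, mul_assoc]
  rw [this]
  rfl

theorem phi_sh (x : Q) (v : (Q × Q) →₀ ZMod p) : phi p Q (sh p Q x v) = sa p Q x (phi p Q v) := by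
  have : (phi p Q).comp (sh p Q x) = (sa p Q x).comp (phi p Q) := by
    apply Finsupp.addHom_ext
    intro t a
    rw [AddMonoidHom.comp_apply, AddMonoidHom.comp_apply, sh_single, phi_single, phi_single,
      map_sub, sa_single, sa_single, mul_assoc]
  exact DFunLike.congr_fun this v

theorem sh_apply (x : Q) (v : (Q × Q) →₀ ZMod p) (t : Q × Q) :
    sh p Q x v (t.1, x * t.2) = v t := by
  show mapDomain (fun t : Q × Q => (t.1, x * t.2)) v ((fun t : Q × Q => (t.1, x * t.2)) t) = v t
  apply mapDomain_apply
  rintro ⟨a, b⟩ ⟨c, d⟩ h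
  simp only [Prod.mk.injEq, mul_right_inj] at h
  rw [h.1, h.2]

variable (p Q)

/-- the extension -/
structure GG : Type where
  v : (Q × Q) →₀ ZMod p
  x : Q
  h : phi p Q v = single x 1 - single 1 1

variable {p Q}

namespace GG

theorem ext' {g g' : GG p Q} (h1 : g.v = g'.v) (h2 : g.x = g'.x) : g = g' := by
  cases g
  cases g'
  simp only at h1 h2
  subst h1
  subst h2
  rfl

noncomputable instance : Mul (GG p Q) where
  mul g g' := ⟨g.v + sh p Q g.x g'.v, g.x * g'.x, by
    rw [map_add, phi_sh, g.h, g'.h, map_sub, sa_single, sa_single, mul_one]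
    abel⟩

noncomputable instance : One (GG p Q) where
  one := ⟨0, 1, by rw [map_zero, sub_self]⟩

noncomputable instance : Inv (GG p Q) where
  inv g := ⟨- sh p Q g.x⁻¹ g.v, g.x⁻¹, by
    rw [map_neg, phi_sh, g.h, map_sub, sa_single, sa_single, mul_one, inv_mul_cancel]
    abel⟩

theorem mul_v (g g' : GG p Q) : (g * g').v = g.v + sh p Q g.x g'.v := rfl

theorem mul_x (g g' : GG p Q) : (g * g').x = g.x * g'.x := rfl

theorem one_v : (1 : GG p Q).v = 0 := rfl

theorem one_x : (1 : GG p Q).x = 1 := rfl

theorem inv_v (g : GG p Q) : g⁻¹.v = - sh p Q g.x⁻¹ g.v := rfl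

theorem inv_x (g : GG p Q) : g⁻¹.x = g.x⁻¹ := rfl

noncomputable instance : Group (GG p Q) :=
  Group.ofLeftAxioms
    (by
      intro a b c
      apply ext'
      · simp only [mul_v, mul_x, map_add, sh_mul, add_assoc]
      · simp only [mul_x, mul_assoc])
    (by
      intro a
      apply ext'
      · rw [mul_v, one_v, one_x, sh_one, zero_add]
      · rw [mul_x, one_x, one_mul])
    (by
      intro a
      apply ext'
      · rw [mul_v, inv_v, inv_x, one_v, neg_add_cancel]
      · rw [mul_x, inv_x, one_x, inv_mul_cancel])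

variable (p Q)

/-- the projection to `Q` -/
noncomputable def pi : GG p Q →* Q where
  toFun g := g.x
  map_one' := rfl
  map_mul' _ _ := rfl

variable {p Q}

theorem pi_apply (g : GG p Q) : pi p Q g = g.x := rfl

theorem pi_surj : Function.Surjective (pi p Q) := by
  intro x
  refine ⟨⟨single (x, 1) 1, x, ?_⟩, rfl⟩
  rw [phi_single, one_mul]

theorem pow_x (g : GG p Q) (n : ℕ) : (g ^ n).x = g.x ^ n := map_pow (pi p Q) g n

theorem pow_v (g : GG p Q) (n : ℕ) : (g ^ n).v = ∑ i ∈ Finset.range n, sh p Q (g.x ^ i) g.v := by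
  induction n with
  | zero => rfl
  | succ n ih => rw [pow_succ, mul_v, ih, pow_x, Finset.sum_range_succ]

/-- a function which grows by one under translation by `x` -/
theorem exists_c {x : Q} (hx : orderOf x = p) : ∃ c : Q → ZMod p, ∀ q, c (x * q) = c q + 1 := by
  let s : Setoid Q := QuotientGroup.rightRel (Subgroup.zpowers x)
  let r : Q → Q := fun q => (Quotient.mk s q).out
  have hr : ∀ q, ∃ k : ℤ, x ^ k * r q = q := by
    intro q
    have h1 : s (r q) q := Quotient.exact (Quotient.out_eq (Quotient.mk s q))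
    have h2 : q * (r q)⁻¹ ∈ Subgroup.zpowers x := QuotientGroup.rightRel_apply.1 h1
    obtain ⟨k, hk⟩ := h2
    refine ⟨k, ?_⟩
    have hk' : x ^ k = q * (r q)⁻¹ := hk
    rw [hk', inv_mul_cancel_right]
  choose k hk using hr
  refine ⟨fun q => (k q : ZMod p), ?_⟩
  intro q
  have h1 : r (x * q) = r q := by
    show (Quotient.mk s (x * q)).out = (Quotient.mk s q).out
    congr 1
    apply Quotient.sound
    show s (x * q) q
    refine QuotientGroup.rightRel_apply.2 ?_
    rw [mul_inv_rev, mul_inv_cancel_left]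
    exact Subgroup.inv_mem _ (Subgroup.mem_zpowers x)
  have h2 := hk (x * q)
  rw [h1] at h2
  have h3 : x ^ k (x * q) = x ^ (k q + 1) := by
    apply mul_right_cancel (b := r q)
    rw [h2, add_comm, zpow_add, zpow_one, mul_assoc, hk q]
  have h4 : (p : ℤ) ∣ k (x * q) - (k q + 1) := by
    have := (orderOf_dvd_iff_zpow_eq_one (x := x) (i := k (x * q) - (k q + 1))).2 (by
      rw [zpow_sub, h3, mul_inv_cancel])
    rwa [hx] at this
  have h5 := (ZMod.intCast_zmod_eq_zero_iff_dvd (k (x * q) - (k q + 1)) p).2 h4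
  push_cast at h5
  exact sub_eq_zero.1 h5

/-- the functional with weights `w` -/
noncomputable def lin {α : Type} (w : α → ZMod p) : (α →₀ ZMod p) →+ ZMod p :=
  Finsupp.liftAddHom fun t => AddMonoidHom.mulRight (w t)

theorem lin_single {α : Type} (w : α → ZMod p) (t : α) (a : ZMod p) :
    lin w (single t a) = a * w t := by
  unfold lin
  rw [Finsupp.liftAddHom_apply_single]
  rfl

/-- there are no elements of order `p` outside the kernel -/
theorem x_eq_one [hp : Fact p.Prime] {g : GG p Q} (hg : g ^ p = 1) : g.x = 1 := by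
  classical
  by_contra hne
  have hxp : g.x ^ p = 1 := by rw [← pow_x, hg, one_x]
  have hord : orderOf g.x = p := orderOf_eq_prime hxp hne
  obtain ⟨c, hc⟩ := exists_c hord
  have hci : ∀ (i : ℕ) (q : Q), c (g.x ^ i * q) = c q + i := by
    intro i q
    induction i with
    | zero => simp
    | succ i ih =>
      rw [pow_succ', mul_assoc, hc, ih]
      push_cast
      ring
  have hnorm : ∑ i ∈ Finset.range p, sh p Q (g.x ^ i) g.v = 0 := by
    rw [← pow_v, hg, one_v]
  set L0 : ((Q × Q) →₀ ZMod p) →+ ZMod p :=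
    lin (fun t => (c (t.2 * t.1) - c t.2) * if c t.2 = 0 then 1 else 0) with hL0
  have key : (lin c).comp (phi p Q) =
      ∑ i ∈ Finset.range p, L0.comp (sh p Q (g.x ^ i)) := by
    apply Finsupp.addHom_ext
    intro t a
    rw [AddMonoidHom.comp_apply, phi_single, map_sub, lin_single, lin_single,
      AddMonoidHom.finsetSum_apply]
    have h1 : ∀ i ∈ Finset.range p, (L0.comp (sh p Q (g.x ^ i))) (single t a) =
        a * ((c (t.2 * t.1) - c t.2) * if c t.2 + i = 0 then 1 else 0) := by
      intro i _
      rw [AddMonoidHom.comp_apply, sh_single, hL0, lin_single]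
      simp only
      rw [mul_assoc (g.x ^ i), hci, hci]
      congr 2
      ring
    rw [Finset.sum_congr rfl h1, ← Finset.mul_sum, ← Finset.mul_sum]
    have h2 : ∑ i ∈ Finset.range p, (if c t.2 + (i : ZMod p) = 0 then (1 : ZMod p) else 0) = 1 := by
      rw [Finset.sum_eq_single ((- c t.2).val)]
      · rw [if_pos]
        rw [ZMod.natCast_zmod_val, add_neg_cancel]
      · intro i hi hne
        rw [if_neg]
        intro h
        apply hne
        have h3 : (i : ZMod p) = - c t.2 := (neg_eq_of_add_eq_zero_right h).symm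
        rw [← h3, ZMod.val_natCast, Nat.mod_eq_of_lt (Finset.mem_range.1 hi)]
      · intro h
        exact absurd (Finset.mem_range.2 (ZMod.val_lt _)) h
    rw [h2, mul_one]
    ring
  have h1 := DFunLike.congr_fun key g.v
  rw [AddMonoidHom.comp_apply, g.h, map_sub, lin_single, lin_single,
    AddMonoidHom.finsetSum_apply] at h1
  simp only [AddMonoidHom.comp_apply] at h1
  rw [← map_sum, hnorm, map_zero] at h1
  have h2 := hc 1
  rw [mul_one] at h2
  rw [h2] at h1
  have h3 : (1 : ZMod p) = 0 := by
    rw [← h1]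
    ring
  exact one_ne_zero h3

/-- elements of the kernel -/
theorem pow_p_of_x [hp : Fact p.Prime] {g : GG p Q} (hg : g.x = 1) : g ^ p = 1 := by
  apply ext'
  · rw [pow_v, hg, one_v]
    simp only [one_pow, sh_one, Finset.sum_const, Finset.card_range]
    ext t
    simp
  · rw [pow_x, hg, one_pow, one_x]

theorem comm_of_x {g g' : GG p Q} (hg : g.x = 1) (hg' : g'.x = 1) : g * g' = g' * g := by
  apply ext'
  · rw [mul_v, mul_v, hg, hg', sh_one, sh_one, add_comm]
  · rw [mul_x, mul_x, hg, hg']

theorem conj_v {g h : GG p Q} (hh : h.x = 1) : (g * h * g⁻¹).v = sh p Q g.x h.v := by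
  rw [mul_v, mul_v, mul_x, hh, mul_one, inv_v, map_neg, ← sh_mul, mul_inv_cancel, sh_one]
  abel

/-- only finitely many translates of a nonzero element are equal -/
theorem fin_fibre {v : (Q × Q) →₀ ZMod p} (hv : v ≠ 0) (w : (Q × Q) →₀ ZMod p) :
    {x : Q | sh p Q x v = w}.Finite := by
  classical
  obtain ⟨t, ht⟩ := Finsupp.ne_iff.1 hv
  have h1 : {x : Q | sh p Q x v = w} ⊆
      (fun x : Q => (t.1, x * t.2)) ⁻¹' (w.support : Set (Q × Q)) := by
    intro x hx
    have hx' : sh p Q x v = w := hx
    show (t.1, x * t.2) ∈ (w.support : Set (Q × Q))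
    rw [Finset.mem_coe, Finsupp.mem_support_iff, ← hx', sh_apply]
    exact ht
  refine Set.Finite.subset (Set.Finite.preimage ?_ (Finset.finite_toSet _)) h1
  intro a _ b _ h
  simp only [Prod.mk.injEq, mul_left_inj, true_and] at h
  exact h

end GG

end Pool.Agent.TH787.RelMod
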