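import Pool.Agent.TH787.MonP
import Pool.Agent.TH787.RelMod

/-!
# A periodic conjugacy biprimitively finite group outside the class
-/

set_option autoImplicit false

namespace Pool.Agent.TH787.CBF

open Pool.Agent.TH787.RelMod

/-- an infinite group without involutions in which a nontrivial element and almost all of its
conjugates generate an infinite subgroup -/
def Bad (B : Type) [Group B] : Prop :=
  Infinite B ∧ (∀ b : B, b ^ 2 = 1 → b = 1) ∧
    ∀ m : B, m ≠ 1 → {g : B | ((Subgroup.closure {m, g⁻¹ * m * g} : Subgroup B) : Set B).Finite}.Finite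

/-- no quotient is bad -/
def NoBad (K : Type) [Group K] : Prop :=
  ∀ (B : Type) [Group B] (f : K →* B), Function.Surjective f → ¬ Bad B

theorem noBad_iso (K L : Type) [Group K] [Group L] (e : K ≃* L) (h : NoBad K) : NoBad L := by
  intro B _ f hf
  exact h B (f.comp e.toMonoidHom) (hf.comp e.surjective)

theorem noBad_two (K : Type) [Group K] (h : IsPGroup 2 K) : NoBad K := by
  rintro B _ f hf ⟨hinf, h2, -⟩
  obtain ⟨b, hb⟩ := exists_ne (1 : B)
  obtain ⟨k, rfl⟩ := hf b
  obtain ⟨n, hn⟩ := h k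
  have key : ∀ n : ℕ, ∀ b : B, b ^ (2 ^ n) = 1 → b = 1 := by
    intro n
    induction n with
    | zero =>
      intro b hb
      simpa using hb
    | succ n ih =>
      intro b hb
      apply h2
      apply ih
      rw [← pow_mul, ← pow_succ']
      exact hb
  apply hb
  apply key n
  rw [← map_pow, hn, map_one]

theorem noBad_bin (K : Type) [Group K]
    (h : ∀ x y : K, ((Subgroup.closure ({x, y} : Set K)) : Set K).Finite) : NoBad K := by
  rintro B _ f hf ⟨hinf, -, h3⟩
  obtain ⟨b, hb⟩ := exists_ne (1 : B)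
  have h4 := h3 b hb
  have h5 : {g : B | ((Subgroup.closure {b, g⁻¹ * b * g} : Subgroup B) : Set B).Finite} =
      Set.univ := by
    rw [Set.eq_univ_iff_forall]
    intro g
    obtain ⟨x, rfl⟩ := hf b
    obtain ⟨y, hy⟩ := hf (g⁻¹ * f x * g)
    have h6 : (Subgroup.closure {f x, g⁻¹ * f x * g} : Subgroup B) =
        (Subgroup.closure {x, y}).map f := by
      rw [MonoidHom.map_closure, Set.image_pair, hy]
    show ((Subgroup.closure {f x, g⁻¹ * f x * g} : Subgroup B) : Set B).Finite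
    rw [h6, Subgroup.coe_map]
    exact (h x y).image _
  rw [h5] at h4
  exact Set.infinite_univ h4

/-- nontrivial normal subgroups of bad groups are bad -/
theorem bad_normal {B : Type} [Group B] (hB : Bad B) {M : Subgroup B} (hM : M.Normal)
    (hne : M ≠ ⊥) : Bad M := by
  obtain ⟨hinf, h2, h3⟩ := hB
  refine ⟨?_, ?_, ?_⟩
  · by_contra hfin
    rw [not_infinite_iff_finite] at hfin
    obtain ⟨m, hm⟩ := Subgroup.ne_bot_iff_exists_ne_one.1 hne
    have h4 := h3 m (fun h => hm (Subtype.ext h))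
    have h5 : {g : B | ((Subgroup.closure {(m : B), g⁻¹ * m * g} : Subgroup B) : Set B).Finite} =
        Set.univ := by
      rw [Set.eq_univ_iff_forall]
      intro g
      have h6 : (Subgroup.closure {(m : B), g⁻¹ * m * g} : Subgroup B) ≤ M := by
        rw [Subgroup.closure_le]
        rintro x (rfl | rfl)
        · exact m.2
        · have := hM.conj_mem m m.2 g⁻¹
          rwa [inv_inv] at this
      exact Set.Finite.subset (Set.toFinite (M : Set B)) h6
    rw [h5] at h4
    exact Set.infinite_univ h4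
  · intro b hb
    apply Subtype.ext
    apply h2
    exact congrArg Subtype.val hb
  · intro m hm
    have h4 := h3 m (fun h => hm (Subtype.ext h))
    have h5 : {g : M | ((Subgroup.closure {m, g⁻¹ * m * g} : Subgroup M) : Set M).Finite} ⊆
        (fun g : M => (g : B)) ⁻¹'
          {g : B | ((Subgroup.closure {(m : B), g⁻¹ * m * g} : Subgroup B) : Set B).Finite} := by
      intro g hg
      have h6 : (Subgroup.closure {(m : B), (g : B)⁻¹ * m * g} : Subgroup B) =
          (Subgroup.closure {m, g⁻¹ * m * g}).map M.subtype := by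
        rw [MonoidHom.map_closure, Set.image_pair]
        rfl
      show ((Subgroup.closure {(m : B), (g : B)⁻¹ * m * g} : Subgroup B) : Set B).Finite
      rw [h6, Subgroup.coe_map]
      exact Set.Finite.image _ hg
    exact (h4.preimage Subtype.val_injective.injOn).subset h5

theorem noBad_ext (K : Type) [Group K] (N : Subgroup K) [hN : N.Normal] (h1 : NoBad N)
    (h2 : NoBad (K ⧸ N)) : NoBad K := by
  intro B _ f hf hB
  by_cases hne : N.map f = ⊥
  · have h3 : N ≤ f.ker := by
      intro n hn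
      have : f n ∈ N.map f := ⟨n, hn, rfl⟩
      rw [hne, Subgroup.mem_bot] at this
      exact this
    refine h2 B (QuotientGroup.lift N f h3) ?_ hB
    intro b
    obtain ⟨k, rfl⟩ := hf b
    exact ⟨(k : K ⧸ N), rfl⟩
  · have hM : (N.map f).Normal := hN.map f hf
    refine h1 (N.map f) (f.subgroupMap N) (f.subgroupMap_surjective N) (bad_normal hB hM hne)

/-- the monster is bad -/
theorem bad_monster {p : ℕ} [hp : Fact p.Prime] (hodd : Odd p) {Q : Type} [Group Q]
    (h1 : ∀ g : Q, ∃ k : ℕ, g ^ (p ^ k) = 1) (h2 : ∃ a b : Q, a * b ≠ b * a)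
    (h3 : ∀ t : Q, t ≠ 1 → ∃ y : Q, ∀ h : Q, h * t = t * h → h ∈ Subgroup.zpowers y) :
    Bad Q := by
  have hpg : IsPGroup p Q := h1
  have hcen : ∀ t : Q, t ≠ 1 → {h : Q | h * t = t * h}.Finite := by
    intro t ht
    obtain ⟨y, hy⟩ := h3 t ht
    obtain ⟨k, hk⟩ := h1 y
    have h4 : IsOfFinOrder y := isOfFinOrder_iff_pow_eq_one.2 ⟨p ^ k, pow_pos hp.1.pos k, hk⟩
    exact h4.finite_zpowers.subset hy
  refine ⟨?_, ?_, ?_⟩
  · by_contra hfin
    rw [not_infinite_iff_finite] at hfin
    obtain ⟨a, b, hab⟩ := h2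
    have hnt : Nontrivial Q := ⟨a, b, fun h => hab (by rw [h])⟩
    have hc := hpg.center_nontrivial
    obtain ⟨⟨z, hz⟩, hz1⟩ := exists_ne (1 : Subgroup.center Q)
    obtain ⟨y, hy⟩ := h3 z (fun h => hz1 (Subtype.ext h))
    have hall : ∀ h : Q, h ∈ Subgroup.zpowers y := fun h =>
      hy h ((Subgroup.mem_center_iff.1 hz) h)
    obtain ⟨i, rfl⟩ := hall a
    obtain ⟨j, rfl⟩ := hall b
    apply hab
    show y ^ i * y ^ j = y ^ j * y ^ i
    rw [← zpow_add, ← zpow_add, add_comm]
  · intro b hb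
    obtain ⟨k, hk⟩ := h1 b
    have h4 : Nat.Coprime 2 (p ^ k) := (Nat.coprime_two_left.2 hodd).pow_right k
    have h5 : orderOf b ∣ Nat.gcd 2 (p ^ k) :=
      Nat.dvd_gcd (orderOf_dvd_of_pow_eq_one hb) (orderOf_dvd_of_pow_eq_one hk)
    rw [h4] at h5
    exact orderOf_eq_one_iff.1 (Nat.dvd_one.1 h5)
  · intro m hm
    set X : Set Q := ⋃ z ∈ {z : Q | z * m = m * z} \ {1}, {h : Q | h * z = z * h} with hX
    have hXfin : X.Finite := by
      apply Set.Finite.biUnion ((hcen m hm).subset Set.sdiff_subset)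
      intro z hz
      exact hcen z hz.2
    have h4 : {g : Q | ((Subgroup.closure {m, g⁻¹ * m * g} : Subgroup Q) : Set Q).Finite} ⊆
        (fun g : Q => g⁻¹ * m * g) ⁻¹' X := by
      intro g hg
      set K := (Subgroup.closure {m, g⁻¹ * m * g} : Subgroup Q) with hK
      have hmK : m ∈ K := Subgroup.subset_closure (Or.inl rfl)
      have hgK : g⁻¹ * m * g ∈ K := Subgroup.subset_closure (Or.inr rfl)
      have hKf : Finite K := hg
      have hKp : IsPGroup p K := hpg.to_subgroup K
      have hnt : Nontrivial K := ⟨⟨m, hmK⟩, 1, fun h => hm (congrArg Subtype.val h)⟩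
      have hc := hKp.center_nontrivial
      obtain ⟨⟨z, hz⟩, hz1⟩ := exists_ne (1 : Subgroup.center K)
      have hz' := Subgroup.mem_center_iff.1 hz
      have hzm : (z : Q) * m = m * z := (congrArg Subtype.val (hz' ⟨m, hmK⟩)).symm
      have hzg : (z : Q) * (g⁻¹ * m * g) = (g⁻¹ * m * g) * z :=
        (congrArg Subtype.val (hz' ⟨_, hgK⟩)).symm
      have hzne : (z : Q) ≠ 1 := fun h => hz1 (Subtype.ext (Subtype.ext h))
      show g⁻¹ * m * g ∈ X
      rw [hX, Set.mem_iUnion₂]
      exact ⟨z, ⟨hzm, hzne⟩, hzg.symm⟩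
    refine Set.Finite.subset (Set.Finite.preimage' hXfin ?_) h4
    intro w _
    by_cases hex : ∃ g0 : Q, g0⁻¹ * m * g0 = w
    · obtain ⟨g0, hg0⟩ := hex
      have h5 : (fun g : Q => g⁻¹ * m * g) ⁻¹' {w} ⊆
          (fun c : Q => c * g0) '' {h : Q | h * m = m * h} := by
        intro g hg
        have hg' : g⁻¹ * m * g = w := hg
        refine ⟨g * g0⁻¹, ?_, by simp⟩
        show g * g0⁻¹ * m = m * (g * g0⁻¹)
        have h6 : g⁻¹ * m * g = g0⁻¹ * m * g0 := by rw [hg', hg0]
        have h7 : g0⁻¹ * m = g⁻¹ * m * g * g0⁻¹ := by rw [h6]; group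
        calc g * g0⁻¹ * m = g * (g0⁻¹ * m) := by group
          _ = g * (g⁻¹ * m * g * g0⁻¹) := by rw [h7]
          _ = m * (g * g0⁻¹) := by group
      exact ((hcen m hm).image _).subset h5
    · have h5 : (fun g : Q => g⁻¹ * m * g) ⁻¹' {w} = ∅ := by
        rw [Set.eq_empty_iff_forall_notMem]
        intro g hg
        exact hex ⟨g, hg⟩
      rw [h5]
      exact Set.finite_empty

section

variable {p : ℕ} [hp : Fact p.Prime] {Q : Type} [Group Q]

theorem pgroup (h1 : ∀ g : Q, ∃ k : ℕ, g ^ (p ^ k) = 1) (g : GG p Q) :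
    ∃ k : ℕ, g ^ (p ^ k) = 1 := by
  obtain ⟨k, hk⟩ := h1 g.x
  refine ⟨k + 1, ?_⟩
  rw [pow_succ, pow_mul]
  apply GG.pow_p_of_x
  rw [GG.pow_x, hk]

/-- elements of prime order are in the kernel -/
theorem x_of_prime (h1 : ∀ g : Q, ∃ k : ℕ, g ^ (p ^ k) = 1) {g : GG p Q} {q : ℕ}
    (hq : q.Prime) (hg : g ≠ 1) (hgq : g ^ q = 1) : g.x = 1 := by
  obtain ⟨k, hk⟩ := pgroup h1 g
  have hord : orderOf g = q := by
    rcases (Nat.dvd_prime hq).1 (orderOf_dvd_of_pow_eq_one hgq) with h | h
    · exact absurd (orderOf_eq_one_iff.1 h) hg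
    · exact h
  have h2 : q ∣ p ^ k := by
    rw [← hord]
    exact orderOf_dvd_of_pow_eq_one hk
  have h3 : q = p := (Nat.prime_dvd_prime_iff_eq hq hp.1).1 (hq.dvd_of_dvd_pow h2)
  rw [h3] at hgq
  exact GG.x_eq_one hgq

/-- finitely generated subgroups with finite image are finite -/
theorem fin_of_fg (S : Subgroup (GG p Q)) (hS : S.FG) (hf : (GG.pi p Q '' (S : Set (GG p Q))).Finite) :
    (S : Set (GG p Q)).Finite := by
  have hSfg : Group.FG S := (Group.fg_iff_subgroup_fg S).2 hS
  set f : S →* Q := (GG.pi p Q).comp S.subtype with hfdef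
  have hrange : Finite f.range := by
    have : (f.range : Set Q) = GG.pi p Q '' (S : Set (GG p Q)) := by
      ext x
      constructor
      · rintro ⟨s, rfl⟩
        exact ⟨s, s.2, rfl⟩
      · rintro ⟨s, hs, rfl⟩
        exact ⟨⟨s, hs⟩, rfl⟩
    have h1 : (f.range : Set Q).Finite := by rw [this]; exact hf
    exact h1
  have hidx : f.ker.FiniteIndex := Subgroup.finiteIndex_ker f
  have hkfg : Group.FG f.ker := Subgroup.fg_of_index_ne_zero f.ker
  have hx : ∀ g : f.ker, ((g : S) : GG p Q).x = 1 := fun g => g.2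
  have hcomm : ∀ a b : f.ker, a * b = b * a := by
    intro a b
    apply Subtype.ext
    apply Subtype.ext
    exact GG.comm_of_x (hx a) (hx b)
  let inst : CommGroup f.ker := { (inferInstance : Group f.ker) with mul_comm := hcomm }
  have hfin : Finite f.ker := by
    have htor : IsMulTorsion f.ker := by
      intro g
      rw [isOfFinOrder_iff_pow_eq_one]
      refine ⟨p, hp.1.pos, ?_⟩
      apply Subtype.ext
      apply Subtype.ext
      exact GG.pow_p_of_x (hx g)
    exact CommGroup.finite_of_fg_isMulTorsion f.ker htor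
  have hSfin : Finite S := by
    apply Nat.finite_of_card_ne_zero
    rw [← Subgroup.card_mul_index f.ker]
    exact mul_ne_zero Nat.card_pos.ne' hidx.index_ne_zero
  exact hSfin

/-- normalizers of nontrivial finite subgroups have finite image -/
theorem norm_fin (h1 : ∀ g : Q, ∃ k : ℕ, g ^ (p ^ k) = 1) (H : Subgroup (GG p Q))
    (hH : (H : Set (GG p Q)).Finite) (hne : H ≠ ⊥) :
    (GG.pi p Q '' {g | ∀ h ∈ H, g * h * g⁻¹ ∈ H}).Finite := by
  have hHf : Finite H := hH
  obtain ⟨h0, hh0⟩ := Subgroup.ne_bot_iff_exists_ne_one.1 hne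
  -- an element of order `p`
  obtain ⟨h, hhH, hh1, hhx⟩ : ∃ h ∈ H, h ≠ 1 ∧ h.x = 1 := by
    have hord : orderOf (h0 : GG p Q) ≠ 1 := by
      rw [ne_eq, orderOf_eq_one_iff]
      exact fun h => hh0 (Subtype.ext h)
    obtain ⟨q, hq, hdvd⟩ := Nat.exists_prime_and_dvd hord
    obtain ⟨k, hk⟩ := pgroup h1 (h0 : GG p Q)
    have hpos : 0 < orderOf (h0 : GG p Q) :=
      orderOf_pos_iff.2 (isOfFinOrder_iff_pow_eq_one.2 ⟨_, pow_pos hp.1.pos k, hk⟩)
    obtain ⟨l, hl⟩ := hdvd
    have hl0 : l ≠ 0 := by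
      rintro rfl
      rw [mul_zero] at hl
      omega
    have hord2 : orderOf ((h0 : GG p Q) ^ l) = q := by
      rw [orderOf_pow_of_dvd hl0 ⟨q, by rw [hl, mul_comm]⟩, hl, Nat.mul_div_cancel _ (by omega)]
    have hne1 : (h0 : GG p Q) ^ l ≠ 1 := by
      intro h
      rw [h, orderOf_one] at hord2
      exact hq.one_lt.ne hord2
    refine ⟨(h0 : GG p Q) ^ l, H.pow_mem h0.2 l, hne1, ?_⟩
    apply x_of_prime h1 hq hne1
    rw [← hord2, pow_orderOf_eq_one]
  have hv : h.v ≠ 0 := by
    intro hv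
    apply hh1
    exact GG.ext' hv hhx
  have h2 : GG.pi p Q '' {g | ∀ h ∈ H, g * h * g⁻¹ ∈ H} ⊆
      (fun x : Q => sh p Q x h.v) ⁻¹' ((fun g : GG p Q => g.v) '' (H : Set (GG p Q))) := by
    rintro _ ⟨g, hg, rfl⟩
    refine ⟨g * h * g⁻¹, hg h hhH, ?_⟩
    exact GG.conj_v hhx
  refine Set.Finite.subset (Set.Finite.preimage' (hH.image _) ?_) h2
  intro w _
  exact GG.fin_fibre hv w

end

end Pool.Agent.TH787.CBF
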